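import Pool.Agent.W966.Vg.Stms

/-!
# VG-REC: the recursion is a computation
-/

set_option autoImplicit false

namespace Pool.Agent.W613.VG

open MvPolynomial Pool.Agent.W966.Vf Pool.Agent.W966.Vg

/-! ## Strong recursion -/

/-- a function defined by strong recursion -/
noncomputable def recp {β : Type} (F : ℕ → (ℕ → β) → β) (b0 : β) (k : ℕ) : β :=
  F k (fun i => if _h : i < k then recp F b0 i else b0)
termination_by k
decreasing_by exact _h

theorem recp_eq {β : Type} (F : ℕ → (ℕ → β) → β) (b0 : β)
    (hF : ∀ k p q, (∀ i < k, p i = q i) → F k p = F k q) (k : ℕ) :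
    recp F b0 k = F k (recp F b0) := by
  rw [recp]
  apply hF
  intro i hi
  rw [dif_pos hi]

/-! ## Spans -/

section Sp

variable {A ι : Type} [CommRing A]

/-- the span of `1`, the variables and the results before -/
noncomputable def Sp (l : ℕ) (g : ℕ → MvPolynomial ι A) : Submodule A (MvPolynomial ι A) :=
  Submodule.span A (({1} ∪ Set.range X) ∪ g '' Set.Iio l)

theorem one_mem_Sp (l : ℕ) (g : ℕ → MvPolynomial ι A) : (1 : MvPolynomial ι A) ∈ Sp l g :=
  Submodule.subset_span (Or.inl (Or.inl rfl))

theorem X_mem_Sp (l : ℕ) (g : ℕ → MvPolynomial ι A) (i : ι) :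
    (X i : MvPolynomial ι A) ∈ Sp l g :=
  Submodule.subset_span (Or.inl (Or.inr ⟨i, rfl⟩))

theorem g_mem_Sp (l : ℕ) (g : ℕ → MvPolynomial ι A) (s : ℕ) (hs : s < l) : g s ∈ Sp l g :=
  Submodule.subset_span (Or.inr ⟨s, hs, rfl⟩)

theorem C_mul_mem_Sp (l : ℕ) (g : ℕ → MvPolynomial ι A) (a : A) (f : MvPolynomial ι A)
    (hf : f ∈ Sp l g) : C a * f ∈ Sp l g := by
  rw [← MvPolynomial.smul_eq_C_mul]
  exact Submodule.smul_mem _ _ hf

theorem C_mem_Sp (l : ℕ) (g : ℕ → MvPolynomial ι A) (a : A) :
    (C a : MvPolynomial ι A) ∈ Sp l g := by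
  have := C_mul_mem_Sp l g a 1 (one_mem_Sp l g)
  rwa [mul_one] at this

theorem Sp_mono {l l' : ℕ} (h : l ≤ l') {g g' : ℕ → MvPolynomial ι A}
    (hg : ∀ s < l, g' s = g s) : Sp l g ≤ Sp l' g' := by
  apply Submodule.span_mono
  apply Set.union_subset_union_right
  rintro _ ⟨s, hs, rfl⟩
  exact ⟨s, lt_of_lt_of_le hs h, hg s hs⟩

theorem exists_LF [Fintype ι] (l : ℕ) (g : ℕ → MvPolynomial ι A) (f : MvPolynomial ι A)
    (hf : f ∈ Sp l g) : ∃ o : LF A ι, f = o.val X l g := by
  classical
  induction hf using Submodule.span_induction with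
  | mem x hx =>
    rcases hx with (hx | ⟨i, rfl⟩) | ⟨s, hs, rfl⟩
    · rw [Set.mem_singleton_iff] at hx
      subst hx
      exact ⟨⟨1, 0, 0⟩, by simp [LF.val]⟩
    · refine ⟨⟨0, Pi.single i 1, 0⟩, ?_⟩
      simp only [LF.val, Pi.zero_apply, map_zero, zero_mul, Finset.sum_const_zero, add_zero,
        zero_add]
      rw [Finset.sum_eq_single i]
      · simp
      · intro b _ hb
        rw [Pi.single_eq_of_ne hb, map_zero, zero_mul]
      · intro h
        exact absurd (Finset.mem_univ i) h
    · refine ⟨⟨0, 0, Pi.single s 1⟩, ?_⟩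
      simp only [LF.val, Pi.zero_apply, map_zero, zero_mul, Finset.sum_const_zero, add_zero,
        zero_add]
      rw [Finset.sum_eq_single s]
      · simp
      · intro b _ hb
        rw [Pi.single_eq_of_ne hb, map_zero, zero_mul]
      · intro h
        exact absurd (Finset.mem_range.mpr hs) h
  | zero => exact ⟨⟨0, 0, 0⟩, by simp [LF.val]⟩
  | add x y _ _ hx hy =>
    obtain ⟨o, ho⟩ := hx
    obtain ⟨o', ho'⟩ := hy
    refine ⟨⟨o.c + o'.c, o.x + o'.x, o.r + o'.r⟩, ?_⟩
    rw [ho, ho']
    simp only [LF.val, Pi.add_apply, map_add, add_mul, Finset.sum_add_distrib]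
    ring
  | smul a x _ hx =>
    obtain ⟨o, ho⟩ := hx
    refine ⟨⟨a * o.c, fun i => a * o.x i, fun s => a * o.r s⟩, ?_⟩
    rw [ho]
    simp only [LF.val, map_mul, mul_assoc, ← Finset.mul_sum, Algebra.smul_def]
    ring

/-- a valid computation -/
def Vld (M : ℕ) (g : ℕ → MvPolynomial ι A) : Prop :=
  ∀ r < M, ∃ a ∈ Sp r g, ∃ b ∈ Sp r g, g r = a * b

theorem vld_ext (M n : ℕ) (g : ℕ → MvPolynomial ι A) (hv : Vld M g)
    (x y : Fin n → MvPolynomial ι A) (hx : ∀ t, x t ∈ Sp M g) (hy : ∀ t, y t ∈ Sp M g) :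
    ∃ g' : ℕ → MvPolynomial ι A, Vld (M + n) g' ∧ (∀ s < M, g' s = g s) ∧
      ∀ t, x t * y t ∈ Sp (M + n) g' := by
  classical
  let g' : ℕ → MvPolynomial ι A := fun r => if r < M then g r else
    if h : r - M < n then x ⟨r - M, h⟩ * y ⟨r - M, h⟩ else 0
  have h1 : ∀ s < M, g' s = g s := fun s hs => by
    simp only [g']
    rw [if_pos hs]
  have h2 : ∀ t : Fin n, g' (M + t) = x t * y t := fun t => by
    simp only [g']
    have e : M + (t : ℕ) - M = t := by omega
    rw [if_neg (by omega), dif_pos (by rw [e]; exact t.2)]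
    have e2 : (⟨M + (t : ℕ) - M, by rw [e]; exact t.2⟩ : Fin n) = t := Fin.ext e
    rw [e2]
  refine ⟨g', ?_, h1, fun t => ?_⟩
  · intro r hr
    by_cases hrM : r < M
    · obtain ⟨a, ha, b, hb, hab⟩ := hv r hrM
      have hle : Sp r g ≤ Sp r g' := Sp_mono le_rfl fun s hs => h1 s (hs.trans hrM)
      exact ⟨a, hle ha, b, hle hb, by rw [h1 r hrM, hab]⟩
    · have hle : Sp M g ≤ Sp r g' := Sp_mono (by omega) h1
      have e : r = M + ((⟨r - M, by omega⟩ : Fin n) : ℕ) := by
        change r = M + (r - M)
        omega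
      refine ⟨x ⟨r - M, by omega⟩, hle (hx _), y ⟨r - M, by omega⟩, hle (hy _), ?_⟩
      conv_lhs => rw [e]
      rw [h2]
  · rw [← h2 t]
    exact g_mem_Sp _ _ _ (by omega)

theorem nscomp_of_vld [Fintype ι] {V : Type} (M : ℕ) (g : ℕ → MvPolynomial ι A) (hv : Vld M g)
    (f : V → MvPolynomial ι A) (hf : ∀ v, f v ∈ Sp M g) : NSComp A ι V M f := by
  have h1 : ∀ r, ∃ ab : LF A ι × LF A ι, r < M → g r = ab.1.val X r g * ab.2.val X r g := by
    intro r
    by_cases hr : r < M
    · obtain ⟨a, ha, b, hb, hab⟩ := hv r hr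
      obtain ⟨oa, hoa⟩ := exists_LF r g a ha
      obtain ⟨ob, hob⟩ := exists_LF r g b hb
      exact ⟨(oa, ob), fun _ => by rw [← hoa, ← hob, hab]⟩
    · exact ⟨(⟨0, 0, 0⟩, ⟨0, 0, 0⟩), fun h => absurd h hr⟩
  choose ab hab using h1
  choose o ho using fun v => exists_LF M g (f v) (hf v)
  exact ⟨fun r => (ab r).1, fun r => (ab r).2, o, g, hab, ho⟩

end Sp

theorem lin_zero' {K N S : Type} [CommRing K] [CommRing S] [Algebra K S] [Fintype N]
    (w : N → S) : lin (0 : AF K N) w = 0 := by
  simp [lin]

theorem rec_main : S_REC := by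
  intro K Ω Ω' ι N V J₂ _ _ _ _ _ _ _ _ _ _ L d e α β lam mu u W o κ hK hα hT
  classical
  -- the recursion
  let F : ℕ → (ℕ → N → MvPolynomial ι (PowerSeries Ω)) → N → MvPolynomial ι (PowerSeries Ω) :=
    fun k p s => ∑ j, C (lam s j) *
      ∑ i ∈ Finset.Ioo 0 k, lin (α j) (p i) * lin (β j) (p (k - i)) +
      if k = 1 then ∑ i, C (mu s i) * X i else 0
  let p : ℕ → N → MvPolynomial ι (PowerSeries Ω) := recp F 0
  have hp : ∀ k, p k = F k p := by
    intro k
    apply recp_eq
    intro k p q h
    funext s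
    simp only [F]
    congr 1
    apply Finset.sum_congr rfl
    intro j _
    congr 1
    apply Finset.sum_congr rfl
    intro i hi
    rw [Finset.mem_Ioo] at hi
    rw [h i hi.2, h (k - i) (by omega)]
  -- evaluation
  let ev : MvPolynomial ι (PowerSeries Ω) →+* PowerSeries Ω' :=
    eval₂Hom (PowerSeries.map (algebraMap Ω Ω')) (fun i => PowerSeries.C (u i))
  have evC : ∀ a, ev (C a) = PowerSeries.map (algebraMap Ω Ω') a := fun a => eval₂_C _ _ _
  have evX : ∀ i, ev (X i) = PowerSeries.C (u i) := fun i => eval₂_X _ _ _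
  have evK : ∀ z : K, ev (algebraMap K (MvPolynomial ι (PowerSeries Ω)) z) =
      algebraMap K (PowerSeries Ω') z := by
    intro z
    have e1 : algebraMap K (MvPolynomial ι (PowerSeries Ω)) z =
        C (PowerSeries.C (algebraMap K Ω z)) := by
      rw [MvPolynomial.algebraMap_apply, PowerSeries.algebraMap_apply]
    have e2 : algebraMap K (PowerSeries Ω') z = PowerSeries.C (algebraMap K Ω' z) :=
      PowerSeries.algebraMap_apply
    rw [e1, evC, e2, PowerSeries.map_C, hK]
  have evlin : ∀ (f : AF K N) (w : N → MvPolynomial ι (PowerSeries Ω)),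
      ev (lin f w) = lin f (fun s => ev (w s)) := by
    intro f w
    simp only [lin, map_sum, map_mul, evK]
  have lin_smul : ∀ (f : AF K N) (x : PowerSeries Ω') (w : N → PowerSeries Ω'),
      lin f (fun s => x * w s) = x * lin f w := by
    intro f x w
    simp only [lin, Finset.mul_sum]
    apply Finset.sum_congr rfl
    intro s _
    ring
  -- the values
  have hev : ∀ k, 1 ≤ k → ∀ s, ev (p k s) = PowerSeries.X ^ (e * (2 * k - 1)) * W k s := by
    intro k
    induction k using Nat.strong_induction_on with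
    | _ k ih =>
      intro hk s
      have h1 : ev (p k s) = ∑ j, PowerSeries.map (algebraMap Ω Ω') (lam s j) *
          ∑ i ∈ Finset.Ioo 0 k, lin (α j) (fun s => ev (p i s)) *
            lin (β j) (fun s => ev (p (k - i) s)) +
          if k = 1 then ∑ i, PowerSeries.map (algebraMap Ω Ω') (mu s i) * PowerSeries.C (u i)
            else 0 := by
        rw [hp k]
        simp only [F, map_add, map_sum, map_mul, evC, evlin]
        congr 1
        split_ifs
        · simp only [map_sum, map_mul, evC, evX]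
        · exact map_zero _
      have h2 : ∀ j, ∑ i ∈ Finset.Ioo 0 k, lin (α j) (fun s => ev (p i s)) *
            lin (β j) (fun s => ev (p (k - i) s)) = PowerSeries.X ^ (e * (2 * k - 2)) *
            ∑ i ∈ Finset.Ioo 0 k, lin (α j) (W i) * lin (β j) (W (k - i)) := by
        intro j
        rw [Finset.mul_sum]
        apply Finset.sum_congr rfl
        intro i hi
        rw [Finset.mem_Ioo] at hi
        have e1 : (fun s => ev (p i s)) = fun s => PowerSeries.X ^ (e * (2 * i - 1)) * W i s := by
          funext s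
          exact ih i hi.2 hi.1 s
        have e2 : (fun s => ev (p (k - i) s)) =
            fun s => PowerSeries.X ^ (e * (2 * (k - i) - 1)) * W (k - i) s := by
          funext s
          exact ih (k - i) (by omega) (by omega) s
        rw [e1, e2, lin_smul, lin_smul]
        have e3 : e * (2 * k - 2) = e * (2 * i - 1) + e * (2 * (k - i) - 1) := by
          rw [← mul_add]
          congr 1
          omega
        rw [e3, pow_add]
        ring
      rw [h1]
      simp only [h2]
      have h3 := hT k hk s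
      have e4 : e * (2 * k - 1) = e * (2 * k - 2) + e := by
        have : 2 * k - 1 = (2 * k - 2) + 1 := by omega
        rw [this, mul_add, mul_one]
      rw [e4, pow_add, mul_assoc, h3, mul_add, Finset.mul_sum]
      congr 1
      · apply Finset.sum_congr rfl
        intro j _
        ring
      · by_cases h : k = 1
        · subst h
          simp
        · rw [if_neg h, mul_zero]
  -- membership
  have lin_mem : ∀ (l : ℕ) (g : ℕ → MvPolynomial ι (PowerSeries Ω)) (f : AF K N)
      (w : N → MvPolynomial ι (PowerSeries Ω)), (∀ s, w s ∈ Sp l g) → lin f w ∈ Sp l g := by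
    intro l g f w hw
    apply Submodule.sum_mem
    intro s _
    exact C_mul_mem_Sp l g (algebraMap K (PowerSeries Ω) (f.2 s)) (w s) (hw s)
  have hM : ∀ k : ℕ, L * ((k + 1) * (k + 1 - 1) / 2) = L * (k * (k - 1) / 2) + L * k := by
    intro k
    rw [← Nat.choose_two_right, ← Nat.choose_two_right, Nat.choose_succ_succ' k 1,
      Nat.choose_one_right]
    ring
  have hcomp : ∀ k, ∃ g : ℕ → MvPolynomial ι (PowerSeries Ω), Vld (L * (k * (k - 1) / 2)) g ∧
      ∀ i ≤ k, ∀ s, p i s ∈ Sp (L * (k * (k - 1) / 2)) g := by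
    intro k
    induction k with
    | zero =>
      refine ⟨0, ?_, ?_⟩
      · intro r hr
        simp at hr
      · intro i hi s
        obtain rfl : i = 0 := by omega
        rw [hp 0]
        simp [F]
    | succ k ih =>
      obtain ⟨g, hg, hpg⟩ := ih
      let x : Fin (L * k) → MvPolynomial ι (PowerSeries Ω) := fun t =>
        lin (α (Sum.inl (finProdFinEquiv.symm t).1)) (p ((finProdFinEquiv.symm t).2 + 1))
      let y : Fin (L * k) → MvPolynomial ι (PowerSeries Ω) := fun t =>
        lin (β (Sum.inl (finProdFinEquiv.symm t).1)) (p (k - (finProdFinEquiv.symm t).2))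
      obtain ⟨g', hg', hgg', hxy⟩ := vld_ext _ (L * k) g hg x y
        (fun t => lin_mem _ _ _ _ fun s => hpg _ (by omega) s)
        (fun t => lin_mem _ _ _ _ fun s => hpg _ (by omega) s)
      rw [hM k]
      refine ⟨g', hg', ?_⟩
      intro i hi s
      rcases Nat.lt_or_ge k i with h | h
      · obtain rfl : i = k + 1 := by omega
        rw [hp (k + 1)]
        apply Submodule.add_mem
        · apply Submodule.sum_mem
          intro j _
          apply C_mul_mem_Sp
          apply Submodule.sum_mem
          intro i hi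
          rw [Finset.mem_Ioo] at hi
          rcases j with j | j
          · have h1 := hxy (finProdFinEquiv (j, ⟨i - 1, by omega⟩))
            simp only [x, y, Equiv.symm_apply_apply] at h1
            have e1 : i - 1 + 1 = i := by omega
            have e2 : k - (i - 1) = k + 1 - i := by omega
            rw [e1, e2] at h1
            exact h1
          · rw [hα j, lin_zero', zero_mul]
            exact Submodule.zero_mem _
        · split_ifs
          · apply Submodule.sum_mem
            intro i _
            exact C_mul_mem_Sp _ _ _ _ (X_mem_Sp _ _ i)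
          · exact Submodule.zero_mem _
      · exact Sp_mono (by omega) hgg' (hpg i h s)
  obtain ⟨g, hg, hpg⟩ := hcomp d
  refine ⟨fun v => C (PowerSeries.X ^ (2 * d * e) * κ v) +
    ∑ k ∈ Finset.Icc 1 d, C (PowerSeries.X ^ (2 * d * e - e * (2 * k - 1))) * lin (o v) (p k),
    ?_, ?_⟩
  · intro v
    change ev _ = _
    rw [map_add, evC, map_mul, map_sum, mul_add, Finset.mul_sum]
    congr 1
    · rw [map_pow, PowerSeries.map_X]
    · apply Finset.sum_congr rfl
      intro k hk
      rw [Finset.mem_Icc] at hk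
      rw [map_mul, evC, evlin, map_pow, PowerSeries.map_X]
      have e1 : (fun s => ev (p k s)) = fun s => PowerSeries.X ^ (e * (2 * k - 1)) * W k s := by
        funext s
        exact hev k hk.1 s
      rw [e1, lin_smul, ← mul_assoc, ← pow_add]
      congr 2
      have h1 : e * (2 * k - 1) ≤ e * (2 * d) := Nat.mul_le_mul_left e (by omega)
      have h2 : e * (2 * d) = 2 * d * e := by ring
      omega
  · apply nscomp_of_vld _ g hg
    intro v
    apply Submodule.add_mem
    · exact C_mem_Sp _ _ _
    · apply Submodule.sum_mem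
      intro k hk
      rw [Finset.mem_Icc] at hk
      apply C_mul_mem_Sp
      apply lin_mem
      intro s
      exact hpg k hk.2 s

end Pool.Agent.W613.VG
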